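import Mathlib
import Pool.Agent.TH202.Defs
import Pool.Agent.H436R3.Fol.Val

set_option autoImplicit false

namespace Pool.Agent.TH864.C8_TRACE

open Pool.Agent.H436R3.Fol Pool.Agent.TH202

/-- The composition of a discrete valuation with an automorphism. -/
def comp {F Ω : Type} [Field F] [Algebra ℂ F] [Field Ω] [Algebra ℂ Ω] [Algebra F Ω]
    [IsScalarTower ℂ F Ω] (v : DVal Ω) (σ : Ω ≃ₐ[F] Ω) : DVal Ω where
  ord f := v.ord (σ f)
  map_mul f g hf hg := by
    rw [map_mul]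
    exact v.map_mul _ _ ((map_ne_zero σ).mpr hf) ((map_ne_zero σ).mpr hg)
  map_add f g hf hg hfg := by
    rw [map_add]
    exact v.map_add _ _ ((map_ne_zero σ).mpr hf) ((map_ne_zero σ).mpr hg)
      (by rw [← map_add]; exact (map_ne_zero σ).mpr hfg)
  surj := by
    obtain ⟨f, hf, h⟩ := v.surj
    refine ⟨σ.symm f, (map_ne_zero σ.symm).mpr hf, ?_⟩
    rw [AlgEquiv.apply_symm_apply]
    exact h
  const c hc := by
    rw [IsScalarTower.algebraMap_apply ℂ F Ω, AlgEquiv.commutes,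
      ← IsScalarTower.algebraMap_apply ℂ F Ω]
    exact v.const c hc

theorem exists_norm_aux {F K Ω : Type} [Field F] [Algebra ℂ F] [Field K] [Algebra ℂ K]
    [Algebra F K] [IsScalarTower ℂ F K] [Field Ω] [Algebra ℂ Ω] [Algebra F Ω] [Algebra K Ω]
    [IsScalarTower ℂ F Ω] [IsScalarTower F K Ω] [FiniteDimensional F Ω] [IsGalois F Ω]
    (hext : ∀ w : DVal F, ∃ (v : DVal Ω) (e : ℕ), 0 < e ∧
      ∀ f : F, f ≠ 0 → v.ord (algebraMap F Ω f) = e * w.ord f)
    (hres : ∀ v : DVal Ω, ∃ (w : DVal K) (e : ℕ), 0 < e ∧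
      ∀ f : K, f ≠ 0 → v.ord (algebraMap K Ω f) = e * w.ord f) :
    ∃ g : ℕ, 0 < g ∧ ∀ P ∈ Prin K, ∃ P' ∈ Prin F, ∀ w : DVal F,
      ∃ (e : ℕ) (s : Fin g → DVal K) (k : Fin g → ℕ), 0 < e ∧ (∀ i, 0 < k i) ∧
        (∀ i, ∀ f : F, f ≠ 0 → (k i : ℤ) * (s i).ord (algebraMap F K f) = e * w.ord f) ∧
        ∑ i, (k i : ℝ) * P (s i) = e * P' w := by
  classical
  choose V E hE hV using hext
  choose W D hD hW using hres
  let eq := Fintype.equivFin (Ω ≃ₐ[F] Ω)
  let S : DVal F → Fin (Fintype.card (Ω ≃ₐ[F] Ω)) → DVal K := fun w i =>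
    W (comp (V w) (eq.symm i))
  let k : DVal F → Fin (Fintype.card (Ω ≃ₐ[F] Ω)) → ℕ := fun w i =>
    D (comp (V w) (eq.symm i))
  refine ⟨Fintype.card (Ω ≃ₐ[F] Ω), Fintype.card_pos, fun P hP => ?_⟩
  have key : ∃ P' ∈ Prin F, ∀ w : DVal F, ∑ i, (k w i : ℝ) * P (S w i) = E w * P' w := by
    unfold Prin at hP
    induction hP using Submodule.span_induction with
    | mem P hP =>
      obtain ⟨h, hh, rfl⟩ := hP
      have hh' : algebraMap K Ω h ≠ 0 := (map_ne_zero _).mpr hh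
      have hn : Algebra.norm F (algebraMap K Ω h) ≠ 0 := Algebra.norm_ne_zero_iff.mpr hh'
      refine ⟨dv (Algebra.norm F (algebraMap K Ω h)), Submodule.subset_span ⟨_, hn, rfl⟩,
        fun w => ?_⟩
      have h1 : (V w).ord (algebraMap F Ω (Algebra.norm F (algebraMap K Ω h))) =
          E w * w.ord (Algebra.norm F (algebraMap K Ω h)) := hV w _ hn
      rw [Algebra.norm_eq_prod_automorphisms, DVal.ord_prod] at h1
      · have h2 : ∑ i, (k w i : ℤ) * (S w i).ord h =
            ∑ σ : Ω ≃ₐ[F] Ω, (V w).ord (σ (algebraMap K Ω h)) := by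
          rw [← eq.symm.sum_comp]
          refine Finset.sum_congr rfl fun i _ => ?_
          exact (hW (comp (V w) (eq.symm i)) h hh).symm
        rw [← h2] at h1
        unfold dv
        exact_mod_cast h1
      · intro σ _
        exact (map_ne_zero σ).mpr hh'
    | zero => exact ⟨0, Submodule.zero_mem _, fun w => by simp⟩
    | add P Q _ _ hP hQ =>
      obtain ⟨P', hP', hP⟩ := hP
      obtain ⟨Q', hQ', hQ⟩ := hQ
      refine ⟨P' + Q', Submodule.add_mem _ hP' hQ', fun w => ?_⟩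
      simp only [Pi.add_apply, mul_add, Finset.sum_add_distrib, hP w, hQ w]
    | smul r P _ hP =>
      obtain ⟨P', hP', hP⟩ := hP
      refine ⟨r • P', Submodule.smul_mem _ _ hP', fun w => ?_⟩
      simp only [Pi.smul_apply, smul_eq_mul]
      have : ∑ i, (k w i : ℝ) * (r * P (S w i)) = r * ∑ i, (k w i : ℝ) * P (S w i) := by
        rw [Finset.mul_sum]
        exact Finset.sum_congr rfl fun i _ => by ring
      rw [this, hP w]
      ring
  obtain ⟨P', hP', hw⟩ := key
  refine ⟨P', hP', fun w => ⟨E w, S w, k w, hE w, fun i => hD _, fun i f hf => ?_, hw w⟩⟩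
  have h1 := hW (comp (V w) (eq.symm i)) (algebraMap F K f) ((map_ne_zero _).mpr hf)
  have h2 := hV w f hf
  rw [← IsScalarTower.algebraMap_apply F K Ω] at h1
  have h3 : (comp (V w) (eq.symm i)).ord (algebraMap F Ω f) = (V w).ord (algebraMap F Ω f) := by
    change (V w).ord ((eq.symm i) (algebraMap F Ω f)) = _
    rw [AlgEquiv.commutes]
  rw [h3, h2] at h1
  exact h1.symm

/-- The norm of an `ℝ`-principal b-divisor, given the extension and restriction of valuations. -/
theorem exists_norm_of {F K : Type} [Field F] [Algebra ℂ F] [Field K] [Algebra ℂ K] [Algebra F K]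
    [IsScalarTower ℂ F K] [FiniteDimensional F K]
    (exists_ext : ∀ {F Ω : Type} [Field F] [Algebra ℂ F] [Field Ω] [Algebra ℂ Ω] [Algebra F Ω]
      [IsScalarTower ℂ F Ω] [FiniteDimensional F Ω] (w : DVal F),
      ∃ (v : DVal Ω) (e : ℕ), 0 < e ∧ ∀ f : F, f ≠ 0 → v.ord (algebraMap F Ω f) = e * w.ord f)
    (exists_restrict : ∀ {F Ω : Type} [Field F] [Algebra ℂ F] [Field Ω] [Algebra ℂ Ω]
      [Algebra F Ω] [IsScalarTower ℂ F Ω] [Algebra.IsAlgebraic F Ω] (v : DVal Ω),
      ∃ (w : DVal F) (e : ℕ), 0 < e ∧ ∀ f : F, f ≠ 0 → v.ord (algebraMap F Ω f) = e * w.ord f) :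
    ∃ g : ℕ, 0 < g ∧ ∀ P ∈ Prin K, ∃ P' ∈ Prin F, ∀ w : DVal F,
      ∃ (e : ℕ) (s : Fin g → DVal K) (k : Fin g → ℕ), 0 < e ∧ (∀ i, 0 < k i) ∧
        (∀ i, ∀ f : F, f ≠ 0 → (k i : ℤ) * (s i).ord (algebraMap F K f) = e * w.ord f) ∧
        ∑ i, (k i : ℝ) * P (s i) = e * P' w := by
  have : CharZero F := charZero_of_injective_algebraMap (algebraMap ℂ F).injective
  have : Algebra.IsAlgebraic F (AlgebraicClosure K) := Algebra.IsAlgebraic.trans F K _
  have : IsAlgClosure F (AlgebraicClosure K) := ⟨inferInstance, inferInstance⟩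
  have : Normal F (AlgebraicClosure K) := IsAlgClosure.normal F _
  let Ω := IntermediateField.normalClosure F K (AlgebraicClosure K)
  have : Normal F Ω := inferInstance
  have : FiniteDimensional F Ω := inferInstance
  have : IsGalois F Ω := ⟨⟩
  have : IsScalarTower ℂ F Ω := inferInstance
  have : IsScalarTower ℂ K Ω := by
    refine IsScalarTower.of_algebraMap_eq fun c => ?_
    rw [IsScalarTower.algebraMap_apply ℂ F Ω, IsScalarTower.algebraMap_apply ℂ F K,
      ← IsScalarTower.algebraMap_apply F K Ω]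
  have : FiniteDimensional K Ω := FiniteDimensional.right F K Ω
  exact exists_norm_aux (Ω := Ω) (fun w => exists_ext w) (fun v => exists_restrict v)

end Pool.Agent.TH864.C8_TRACE
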