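import Mathlib
import Pool.Agent.TH202.Defs
import Pool.Agent.H436R3.Fol.Val
import Pool.Agent.TH864.TraceAux
import Pool.Agent.TH969.C8_EXT
set_option autoImplicit false
namespace Pool.Agent.TH864.C8_TRACE
open Pool.Agent.H436R3.Fol Pool.Agent.TH202

/-- The norm of an `ℝ`-principal b-divisor. -/
theorem exists_norm {F K : Type} [Field F] [Algebra ℂ F] [Field K] [Algebra ℂ K] [Algebra F K]
    [IsScalarTower ℂ F K] [FiniteDimensional F K] :
    ∃ g : ℕ, 0 < g ∧ ∀ P ∈ Prin K, ∃ P' ∈ Prin F, ∀ w : DVal F,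
      ∃ (e : ℕ) (s : Fin g → DVal K) (k : Fin g → ℕ), 0 < e ∧ (∀ i, 0 < k i) ∧
        (∀ i, ∀ f : F, f ≠ 0 → (k i : ℤ) * (s i).ord (algebraMap F K f) = e * w.ord f) ∧
        ∑ i, (k i : ℝ) * P (s i) = e * P' w :=
  exists_norm_of (fun w => Pool.Agent.TH969.C8_EXT.exists_ext w)
    (fun v => Pool.Agent.TH969.C8_EXT.exists_restrict v)

end Pool.Agent.TH864.C8_TRACE
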